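import Pool.Agent.Lib.MP_582f03_nt.Final

/-!
# Khintchine type is not inherited by nondegenerate submanifolds of affine subspaces

For every `n ≥ 6` there are a two-dimensional affine subspace `L ⊆ ℝⁿ` of Khintchine type and a
smooth curve `M ⊆ L`, nondegenerate in `L`, which is not of Khintchine type.
The definitions are in `Pool.Agent.Lib.MP_582f03_nt.Defs`.
-/

namespace Pool.Agent.Results.MP_582f03_nt.KhintchineInheritanceFails

open MeasureTheory Pool.Agent.Results.MP_582f03_nt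

/-- For every `n ≥ 6` there are a two-dimensional affine subspace `L` of `ℝⁿ` which is of
Khintchine type, and a smooth curve `M` in `L`, nondegenerate in `L`, which is not of Khintchine
type: there is even one non-increasing `ψ` with `∑ ψ(q)ⁿ < ∞` such that every point of `M` is
`ψ`-approximable. -/
theorem result (n : ℕ) (hn : 6 ≤ n) :
    ∃ L : AffineSubspace ℝ (E n), (L : Set (E n)).Nonempty ∧
      Module.finrank ℝ L.direction = 2 ∧ KhintchineType 2 (L : Set (E n)) ∧
      ∃ M : Set (E n), IsSmoothSubmanifold 1 M ∧ IsNondegenerateIn 1 M L ∧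
        ¬ KhintchineType 1 M ∧
        ∃ ψ : ℕ → ℝ, IsPsi ψ ∧ Summable (fun q : ℕ => ψ (q + 1) ^ n) ∧
          ∀ x ∈ M, PsiApprox ψ x := by
  obtain ⟨c, rfl⟩ : ∃ c, n = c + 2 := ⟨n - 2, by omega⟩
  obtain ⟨L, hL, hfin, hK, M, hM, hnd, ψ, h0, hanti, hsum, happ, hpos⟩ :=
    KT582.main_c c (by omega)
  have hpsi : IsPsi ψ := ⟨fun q _ => (h0 q).le, fun p q _ hpq => hanti hpq⟩
  have hsum' : Summable (fun q : ℕ => ψ (q + 1) ^ (c + 2)) :=
    (summable_nat_add_iff 1 (f := fun q : ℕ => ψ q ^ (c + 2))).mpr hsum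
  refine ⟨L, hL, hfin, hK, M, hM, hnd, ?_, ψ, hpsi, hsum', happ⟩
  intro hKM
  apply hpos
  have h1 := hKM.1 ψ hpsi hsum'
  have h2 : {x ∈ M | PsiApprox ψ x} = M := by
    ext x
    exact ⟨fun h => h.1, fun h => ⟨h, happ x h⟩⟩
  rwa [h2] at h1

end Pool.Agent.Results.MP_582f03_nt.KhintchineInheritanceFails
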